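import Pool.Agent.Y34.EL.All

/-!
# Rank rigidity for CAT(0) groups with nonzero first `ℓ²`-Betti number

Let `G` act geometrically on a proper geodesically complete CAT(0) space `X`.  Theorem: if `G`
contains no rank one isometry of `X` then every nonconstant harmonic function on a Cayley graph of
`G` has Dirichlet energy at least `κ log R` on the balls of radius `R`, `R → ∞`.  In particular
there are no nonconstant harmonic functions of finite energy, i.e. the first `ℓ²`-Betti number of
`G` vanishes.  So a group with nonzero first `ℓ²`-Betti number (for example a group of deficiency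
at least two) contains a rank one isometry in every geometric action on a geodesically complete
CAT(0) space: alternative (iii) of rank rigidity holds.

Idea of the proof.  (1) Without rank one isometries any two points of a sphere `S(o, r)` are joined
on the sphere by a path of length at most `C (r + 1)`.  Let `c₁`, `c₂` be rays from `o`.  If the
segments `[c₁ t, c₂ t]` leave every ball then their projections to the sphere have length at most
`π r` (sum of comparison angles).  Otherwise `c₁`, `c₂` are joined by a line; if it bounds a flat
half-plane, parallel lines far away have the same use.  If it bounds no half-plane and there are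
elements `g` of `G` such that `g o`, `g⁻¹ o` tend to its ends, then `g` is a rank one isometry
(closing lemma).  Let `γₙ o → c₁`, `γₙ⁻¹ o → η₁`, `βₘ o → c₂`, `βₘ⁻¹ o → η₂`.  If `η₁ = η₂` then `c₁`
and `c₂` are joined via `η₁`; if `η₁ ≠ η₂` they are joined via the limit of `βₘ γₙ⁻¹ o`, because
the sum of two angles of a triangle is at most `π`.
(2) A harmonic function takes values `≥ a` and values `≤ b < a` near every large sphere (maximum
principle), so by (1) and the Cauchy-Schwarz inequality its energy near the sphere of radius `r` is
at least `c / r`.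
-/

set_option autoImplicit false

namespace Pool.Agent.Results.MP_ff40e8_al.EnergyRankOne

open Set Metric Filter

/-- The inequality of Bruhat and Tits: a complete metric space is CAT(0) if and only if any two
points `p`, `q` have a midpoint `m` such that
`d(x, m)² ≤ (d(x, p)² + d(x, q)²) / 2 - d(p, q)² / 4` for all `x`. -/
def BruhatTits (X : Type*) [MetricSpace X] : Prop := ∀ p q : X, ∃ m : X, ∀ x : X,
  dist x m ^ 2 ≤ (dist x p ^ 2 + dist x q ^ 2) / 2 - dist p q ^ 2 / 4

/-- Every geodesic segment extends to a geodesic line: for `p ≠ q` there is a line through `p` and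
`q` (in a CAT(0) space it contains the unique geodesic segment from `p` to `q`). -/
def GeodesicallyComplete (X : Type*) [MetricSpace X] : Prop :=
  ∀ p q : X, p ≠ q → ∃ c : ℝ → X, Isometry c ∧ c 0 = p ∧ c (dist p q) = q

/-- The line `c` bounds a flat half-plane: there is an isometric embedding `H` of the Euclidean
half-plane `ℝ × [0, ∞)` in `X` which extends `c`. -/
def BoundsHalfPlane {X : Type*} [MetricSpace X] (c : ℝ → X) : Prop :=
  ∃ H : ℝ × NNReal → X,
    (∀ p q : ℝ × NNReal, dist (H p) (H q) ^ 2 = (p.1 - q.1) ^ 2 + ((p.2 : ℝ) - q.2) ^ 2) ∧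
    ∀ t : ℝ, H (t, 0) = c t

/-- `g` is a rank one isometry of `X`: it translates a geodesic line `c` by `τ > 0`, and this axis
does not bound a flat half-plane. -/
def IsRankOne (X : Type*) [MetricSpace X] {G : Type*} [Group G] [MulAction G X] (g : G) : Prop :=
  ∃ (τ : ℝ) (c : ℝ → X), 0 < τ ∧ Isometry c ∧ (∀ t, g • c t = c (t + τ)) ∧ ¬ BoundsHalfPlane c

/-- The Dirichlet energy of `f : G → ℝ`, for the Cayley graph with edges `{g, g s}`, `s ∈ S`, on
the ball `{g | d(o, g o) ≤ R}` (a finite set for a geometric action). -/
noncomputable def Energy {X : Type*} [MetricSpace X] {G : Type*} [Group G] [MulAction G X] (o : X)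
    (S : Finset G) (f : G → ℝ) (R : ℝ) : ℝ :=
  ∑ᶠ g ∈ {g : G | dist o (g • o) ≤ R}, ∑ s ∈ S, (f (g * s) - f g) ^ 2

/-- Let `G` act geometrically (by isometries, properly discontinuously, cocompactly) on a proper
geodesically complete CAT(0) space `X`, let `S` be a finite symmetric generating set of `G` and let
`f : G → ℝ` be a nonconstant harmonic function on the Cayley graph.  Then `G` contains a rank one
isometry of `X`, or the energy of `f` on balls of radius `R` is at least `κ log R` for all large
`R`, for some `κ > 0`. -/
theorem result {X : Type*} [MetricSpace X] [ProperSpace X] (hX : BruhatTits X)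
    (hc : GeodesicallyComplete X)
    {G : Type*} [Group G] [MulAction G X] [IsIsometricSMul G X] [ProperlyDiscontinuousSMul G X]
    (hcc : ∃ K : Set X, IsCompact K ∧ ∀ x : X, ∃ g : G, g • x ∈ K)
    (S : Finset G) (hS : ∀ s ∈ S, s⁻¹ ∈ S) (hgen : Subgroup.closure (S : Set G) = ⊤)
    (f : G → ℝ) (harm : ∀ g, ∑ s ∈ S, (f (g * s) - f g) = 0) (hne : ∃ g h, f g ≠ f h) (o : X) :
    (∃ g : G, IsRankOne X g) ∨
      ∃ κ R₀ : ℝ, 0 < κ ∧ ∀ R : ℝ, R₀ ≤ R → κ * Real.log R ≤ Energy o S f R := by
  have hG : Pool.Agent.Y34.HB.Geo X G := ⟨inferInstance, inferInstance, inferInstance, hcc, hX⟩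
  by_cases hno : ∀ g : G, ¬ Pool.Agent.Y34.EL.RankOne X g
  · exact Or.inr (Pool.Agent.Y34.EL.energy_log hG hc hno o S hS hgen f harm hne)
  · left
    push Not at hno
    obtain ⟨g, τ, c, hτ, hc, he⟩ := hno
    refine ⟨g, τ, c, hτ, hc.1, hc.2, ?_⟩
    rintro ⟨H, hH⟩
    have : H ∈ Pool.Agent.Y34.HB.HP c := hH
    rw [he] at this
    exact this

end Pool.Agent.Results.MP_ff40e8_al.EnergyRankOne
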